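import Pool.Agent.Y946.CM.XDefs
import Pool.Agent.W613.MO.ZA

/-!
# `-ζ'/ζ(s) - 1/(s-1) + ∑ 1/(s-ρ)` when only finitely many zeros lie to the right of `θ`
-/

set_option autoImplicit false

namespace Pool.Agent.Y748.CM

open Complex Filter Topology Set Metric
open Pool.Agent.W613.MO
open Pool.Agent.Y946.CM

/-- dividing out the zero of an entire function at one point -/
theorem div_one_zero {f : ℂ → ℂ} (hf : Differentiable ℂ f) {c : ℂ} (hc : f c ≠ 0) (ρ : ℂ) :
    ∃ (n : ℕ) (g : ℂ → ℂ), Differentiable ℂ g ∧ (∀ z, f z = (z - ρ) ^ n * g z) ∧ g ρ ≠ 0 := by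
  have hfa : AnalyticAt ℂ f ρ := hf.analyticAt ρ
  have hne : ¬ ∀ᶠ z in 𝓝 ρ, f z = 0 := by
    intro h
    have h1 : AnalyticOnNhd ℂ f univ := fun z _ => hf.analyticAt z
    have h2 := h1.eqOn_zero_of_preconnected_of_eventuallyEq_zero isPreconnected_univ
      (mem_univ ρ) h
    exact hc (h2 (mem_univ c))
  obtain ⟨n, g, hg, hg0, hfg⟩ := hfa.exists_eventuallyEq_pow_smul_nonzero_iff.2 hne
  have hEq : ∀ z, f z = (z - ρ) ^ n * Function.update (fun w => f w / (w - ρ) ^ n) ρ (g ρ) z := by
    intro z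
    by_cases hz : z = ρ
    · subst hz
      rw [Function.update_self]
      have := hfg.self_of_nhds
      simpa using this
    · rw [Function.update_of_ne hz]
      have : (z - ρ) ^ n ≠ 0 := pow_ne_zero _ (sub_ne_zero.2 hz)
      field_simp
  refine ⟨n, Function.update (fun w => f w / (w - ρ) ^ n) ρ (g ρ), ?_, hEq, ?_⟩
  · intro z
    by_cases hz : z = ρ
    · subst hz
      refine hg.differentiableAt.congr_of_eventuallyEq ?_
      filter_upwards [hfg] with w hw
      by_cases hwz : w = z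
      · subst hwz; rw [Function.update_self]
      · rw [Function.update_of_ne hwz, hw, smul_eq_mul]
        have : (w - z) ^ n ≠ 0 := pow_ne_zero _ (sub_ne_zero.2 hwz)
        field_simp
    · have h1 : DifferentiableAt ℂ (fun w => f w / (w - ρ) ^ n) z :=
        (hf z).div (by fun_prop) (pow_ne_zero _ (sub_ne_zero.2 hz))
      refine h1.congr_of_eventuallyEq ?_
      filter_upwards [isOpen_ne.mem_nhds hz] with w hw
      rw [Function.update_of_ne hw]
  · rw [Function.update_self]
    exact hg0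

/-- dividing out the zeros of an entire function at finitely many points -/
theorem div_zeros {f : ℂ → ℂ} (hf : Differentiable ℂ f) {c : ℂ} (hc : f c ≠ 0) (S : Finset ℂ) :
    ∃ (Z : Multiset ℂ) (g : ℂ → ℂ), (∀ ρ ∈ Z, ρ ∈ S) ∧ Differentiable ℂ g ∧
      (∀ z, f z = (Z.map (fun ρ => z - ρ)).prod * g z) ∧ ∀ ρ ∈ S, g ρ ≠ 0 := by
  classical
  induction S using Finset.induction_on with
  | empty => exact ⟨0, f, by simp, hf, by simp, by simp⟩
  | insert ρ S hρ ih =>
    obtain ⟨Z, g, hZ, hg, hfg, hg0⟩ := ih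
    have hgc : g c ≠ 0 := by
      intro h
      apply hc
      rw [hfg, h, mul_zero]
    obtain ⟨n, g', hg', hgg', hρ0⟩ := div_one_zero hg hgc ρ
    refine ⟨Multiset.replicate n ρ + Z, g', ?_, hg', ?_, ?_⟩
    · intro x hx
      rw [Multiset.mem_add] at hx
      rcases hx with hx | hx
      · rw [Multiset.eq_of_mem_replicate hx]; exact Finset.mem_insert_self _ _
      · exact Finset.mem_insert_of_mem (hZ x hx)
    · intro z
      rw [hfg, hgg']
      simp only [Multiset.map_add, Multiset.map_replicate, Multiset.prod_add,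
        Multiset.prod_replicate]
      ring
    · intro x hx
      rw [Finset.mem_insert] at hx
      rcases hx with rfl | hx
      · exact hρ0
      · intro h
        apply hg0 x hx
        rw [hgg', h, mul_zero]

/-- the derivative of a product of linear factors -/
theorem hasDerivAt_prod (Z : Multiset ℂ) (s : ℂ) (hs : ∀ ρ ∈ Z, s ≠ ρ) :
    HasDerivAt (fun z : ℂ => (Z.map (fun ρ => z - ρ)).prod)
      ((Z.map (fun ρ => s - ρ)).prod * (Z.map (fun ρ => 1 / (s - ρ))).sum) s := by
  induction Z using Multiset.induction_on with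
  | empty => simpa using hasDerivAt_const s (1 : ℂ)
  | cons a Z ih =>
    have h1 := ih (fun ρ hρ => hs ρ (Multiset.mem_cons_of_mem hρ))
    have ha : s - a ≠ 0 := sub_ne_zero.2 (hs a (Multiset.mem_cons_self a Z))
    have h2 := ((hasDerivAt_id s).sub_const a).mul h1
    simp only [Multiset.map_cons, Multiset.prod_cons, Multiset.sum_cons]
    refine h2.congr_deriv ?_
    simp only [id]
    field_simp

/-- the logarithmic derivative of `(s-1) ζ(s)` far from the real axis, when there are no zeros -/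
theorem logDeriv_far {θ T : ℝ} (h1 : 1 / 2 ≤ θ) (h2 : θ < 1)
    (hnz : ∀ s : ℂ, θ < s.re → T ≤ |s.im| → Z1 s ≠ 0) {σ₀ : ℝ} (hσ : θ < σ₀) (h22 : σ₀ ≤ 2) :
    ∃ C : ℝ, 0 < C ∧ ∀ s : ℂ, σ₀ ≤ s.re → s.re ≤ 2 → T + 2 ≤ |s.im| →
      ‖deriv Z1 s / Z1 s‖ ≤ C * Real.log (|s.im| + 3) := by
  obtain ⟨C, A, hC, hA, hgr⟩ := Z1_growth
  set K : ℝ := |Real.log (3 * C * 2 ^ A)| + A with hK
  have hK0 : 0 < K := by positivity
  refine ⟨16 * (2 - θ) / (σ₀ - θ) ^ 2 * K, by
    have : 0 < σ₀ - θ := by linarith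
    have : 0 < 2 - θ := by linarith
    positivity, fun s hs1 hs2 hsT => ?_⟩
  have him : (3 : ℝ) ≤ |s.im| + 3 := by linarith [abs_nonneg s.im]
  set L : ℝ := Real.log (|s.im| + 3) with hL
  have hL1 : 1 ≤ L := by
    rw [hL, Real.le_log_iff_exp_le (by linarith)]
    have := Real.exp_one_lt_d9
    linarith
  set c : ℂ := ⟨2, s.im⟩ with hc
  have hcre : c.re = 2 := rfl
  have hcim : c.im = s.im := rfl
  have hball : ∀ z ∈ ball c (2 - θ), θ < z.re ∧ z.re ≤ 6 ∧ |z.im| + 3 ≤ 2 * (|s.im| + 3) ∧
      T ≤ |z.im| := by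
    intro z hz
    rw [mem_ball, dist_eq_norm] at hz
    have h1 := (Complex.abs_re_le_norm (z - c)).trans_lt hz
    have h2 := (Complex.abs_im_le_norm (z - c)).trans_lt hz
    simp only [sub_re, sub_im, hcre, hcim] at h1 h2
    rw [abs_lt] at h1
    have h3 : |z.im| ≤ |z.im - s.im| + |s.im| := by
      have := abs_add_le (z.im - s.im) s.im
      simpa using this
    have h4 : |s.im| ≤ |z.im - s.im| + |z.im| := by
      have := abs_add_le (s.im - z.im) z.im
      rw [abs_sub_comm] at this
      simpa using this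
    exact ⟨by linarith [h1.1], by linarith [h1.2], by linarith [abs_nonneg s.im], by linarith⟩
  have hc1 : c ≠ 1 := by
    intro h
    have := congrArg Complex.re h
    rw [hcre, one_re] at this
    norm_num at this
  have hZc : 1 / 3 ≤ ‖Z1 c‖ := by
    rw [Z1_ne hc1, norm_mul]
    obtain ⟨hw0, hw1⟩ := SG.zeta_inv_bound c (by rw [hcre])
    rw [norm_inv] at hw1
    have hpos : 0 < ‖riemannZeta c‖ := norm_pos_iff.2 hw0
    have h3 : 1 / 3 ≤ ‖riemannZeta c‖ := by
      have := (inv_le_comm₀ hpos (by norm_num)).1 hw1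
      linarith
    have h4 : 1 ≤ ‖c - 1‖ := by
      have h5 := Complex.abs_re_le_norm (c - 1)
      simp only [sub_re, hcre, one_re] at h5
      norm_num at h5
      exact h5
    nlinarith
  have hB : ∀ z ∈ ball c (2 - θ), ‖Z1 z‖ ≤ Real.exp (K * L) * ‖Z1 c‖ := by
    intro z hz
    obtain ⟨h1, h2, h3, -⟩ := hball z hz
    have h4 := hgr z (by linarith) h2
    have hpos3 : (0 : ℝ) < |s.im| + 3 := by linarith
    have h5 : (|z.im| + 3) ^ A ≤ (2 * (|s.im| + 3)) ^ A :=
      Real.rpow_le_rpow (by positivity) h3 (by linarith)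
    have h6 : (2 * (|s.im| + 3)) ^ A = 2 ^ A * Real.exp (A * L) := by
      rw [Real.mul_rpow (by norm_num) hpos3.le, hL, Real.rpow_def_of_pos hpos3, mul_comm A]
    have h7 : 3 * C * 2 ^ A ≤ Real.exp (|Real.log (3 * C * 2 ^ A)| * L) := by
      have hpos : (0 : ℝ) < 3 * C * 2 ^ A := by positivity
      calc 3 * C * 2 ^ A = Real.exp (Real.log (3 * C * 2 ^ A)) := (Real.exp_log hpos).symm
        _ ≤ _ := Real.exp_le_exp.2 (by
          have h9 := le_abs_self (Real.log (3 * C * 2 ^ A))
          have h10 := abs_nonneg (Real.log (3 * C * 2 ^ A))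
          nlinarith)
    calc ‖Z1 z‖ ≤ C * (|z.im| + 3) ^ A := h4
      _ ≤ C * (2 ^ A * Real.exp (A * L)) := by rw [← h6]; gcongr
      _ = (3 * C * 2 ^ A) * Real.exp (A * L) * (1 / 3) := by ring
      _ ≤ Real.exp (|Real.log (3 * C * 2 ^ A)| * L) * Real.exp (A * L) * ‖Z1 c‖ := by
          gcongr
      _ = Real.exp (K * L) * ‖Z1 c‖ := by
          rw [← Real.exp_add]; congr 2; rw [hK]; ring
  have hfin := logDeriv_zero_free (g := Z1) (c := c) (r := 2 - θ) (r2 := 2 - σ₀) (B := K * L)
    (by linarith) (by linarith) (by linarith) (by positivity)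
    (fun z _ => Z1_entire.analyticAt z)
    (fun z hz => hnz z (hball z hz).1 (hball z hz).2.2.2) hB (z := s)
    (by
      rw [mem_closedBall, dist_eq_norm]
      have e : s - c = ((s.re - 2 : ℝ) : ℂ) := by
        apply Complex.ext <;> simp [hc]
      rw [e, Complex.norm_real, Real.norm_eq_abs, abs_le]
      constructor <;> linarith)
  refine hfin.trans (le_of_eq ?_)
  have e1 : (2 - θ : ℝ) - (2 - σ₀) = σ₀ - θ := by ring
  rw [e1]
  ring

/-- Task X-ZA -/
theorem za2 : ZA2 := by
  classical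
  intro θ h1 h2 hfin
  set S : Finset ℂ := hfin.toFinset with hS
  have hSmem : ∀ s : ℂ, s ∈ S ↔ riemannZeta s = 0 ∧ θ < s.re := by
    intro s
    rw [hS, Set.Finite.mem_toFinset]
    rfl
  have hZ1S : ∀ s : ℂ, θ < s.re → s ∉ S → Z1 s ≠ 0 := by
    intro s hs hsS
    by_cases h1 : s = 1
    · rw [h1, Z1_one]; exact one_ne_zero
    · rw [Z1_ne h1]
      exact mul_ne_zero (sub_ne_zero.2 h1) fun h0 => hsS ((hSmem s).2 ⟨h0, hs⟩)
  obtain ⟨Z, g, hZS, hg, hfg, hg0⟩ := div_zeros Z1_entire
    (c := 1) (by rw [Z1_one]; exact one_ne_zero) S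
  have hgne : ∀ s : ℂ, θ < s.re → g s ≠ 0 := by
    intro s hs
    by_cases hsS : s ∈ S
    · exact hg0 s hsS
    · intro h
      apply hZ1S s hs hsS
      rw [hfg, h, mul_zero]
  -- the formula for `A`
  have hform : ∀ s : ℂ, θ < s.re → s ∉ S →
      -(deriv g s / g s) = -(deriv Z1 s / Z1 s) + (Z.map (fun ρ => 1 / (s - ρ))).sum := by
    intro s hs hsS
    have hP := hasDerivAt_prod Z s (fun ρ hρ h => hsS (h ▸ hZS ρ hρ))
    have hd : HasDerivAt Z1 ((Z.map (fun ρ => s - ρ)).prod *
        (Z.map (fun ρ => 1 / (s - ρ))).sum * g s + (Z.map (fun ρ => s - ρ)).prod * deriv g s) s := by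
      have h3 := hP.mul (hg s).hasDerivAt
      refine h3.congr_of_eventuallyEq (Eventually.of_forall fun z => ?_)
      exact hfg z
    have hZ1 := hZ1S s hs hsS
    have hPne : (Z.map (fun ρ => s - ρ)).prod ≠ 0 := by
      intro h
      apply hZ1
      rw [hfg, h, zero_mul]
    have hgs := hgne s hs
    rw [hd.deriv, hfg]
    field_simp
    ring
  refine ⟨Z, fun s => -(deriv g s / g s), ?_, ?_, ?_, ?_⟩
  · intro ρ hρ
    by_contra h
    exact riemannZeta_ne_zero_of_one_le_re (not_lt.1 h) ((hSmem ρ).1 (hZS ρ hρ)).1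
  · intro s hs
    have h3 : DifferentiableAt ℂ (deriv g) s := (hg.analyticAt s).deriv.differentiableAt
    exact ((h3.div (hg s) (hgne s hs)).neg).differentiableWithinAt
  · intro s hs
    have hs1 : s ≠ 1 := by rintro rfl; simp at hs
    have hz0 : riemannZeta s ≠ 0 := riemannZeta_ne_zero_of_one_le_re hs.le
    have hsS : s ∉ S := fun h => hz0 ((hSmem s).1 h).1
    show -(deriv g s / g s) = _
    rw [hform s (by linarith) hsS]
    have hd : HasDerivAt (fun w : ℂ => (w - 1) * riemannZeta w)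
        (1 * riemannZeta s + (s - 1) * deriv riemannZeta s) s :=
      ((hasDerivAt_id s).sub_const 1).mul (differentiableAt_riemannZeta hs1).hasDerivAt
    have hd2 : HasDerivAt Z1 (1 * riemannZeta s + (s - 1) * deriv riemannZeta s) s := by
      refine hd.congr_of_eventuallyEq ?_
      filter_upwards [isOpen_ne.mem_nhds hs1] with z hz
      exact Z1_ne hz
    have hs2 : s - 1 ≠ 0 := sub_ne_zero.2 hs1
    have h3 := ArithmeticFunction.LSeries_vonMangoldt_eq_deriv_riemannZeta_div hs
    rw [hd2.deriv, Z1_ne hs1, h3]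
    congr 1
    field_simp
    ring
  · intro σ₀ hσ
    rcases lt_or_ge 2 σ₀ with h22 | h22
    · exact ⟨1, one_pos, fun s h3 h4 => absurd (h3.trans h4) (not_le.2 h22)⟩
    -- a height above all exceptional zeros
    obtain ⟨T, hT0, hT⟩ : ∃ T : ℝ, 0 ≤ T ∧ ∀ ρ ∈ S, |ρ.im| + 1 ≤ T := by
      refine ⟨∑ ρ ∈ S, (|ρ.im| + 1), Finset.sum_nonneg fun ρ _ => by positivity, fun ρ hρ => ?_⟩
      exact Finset.single_le_sum (f := fun ρ : ℂ => |ρ.im| + 1) (fun x _ => by positivity) hρ
    have hnz : ∀ s : ℂ, θ < s.re → T ≤ |s.im| → Z1 s ≠ 0 := by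
      intro s hs hsT
      refine hZ1S s hs fun h => ?_
      have := hT s h
      linarith
    obtain ⟨C1, hC1, hb1⟩ := logDeriv_far h1 h2 hnz hσ h22
    have hcomp : IsCompact ((Set.Icc σ₀ 2) ×ℂ (Set.Icc (-(T + 2)) (T + 2))) :=
      isCompact_Icc.reProdIm isCompact_Icc
    have hcont : ContinuousOn (fun s => -(deriv g s / g s))
        ((Set.Icc σ₀ 2) ×ℂ (Set.Icc (-(T + 2)) (T + 2))) := by
      intro s hs
      rw [Complex.mem_reProdIm] at hs
      have h3 : DifferentiableAt ℂ (deriv g) s := (hg.analyticAt s).deriv.differentiableAt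
      exact ((h3.div (hg s) (hgne s (lt_of_lt_of_le hσ hs.1.1))).neg).continuousAt.continuousWithinAt
    obtain ⟨C2, hC2⟩ := hcomp.exists_bound_of_continuousOn hcont
    refine ⟨C1 + (Multiset.card Z : ℝ) + |C2|, by positivity, fun s hs1 hs2 => ?_⟩
    have him : (3 : ℝ) ≤ |s.im| + 3 := by linarith [abs_nonneg s.im]
    have hL1 : 1 ≤ Real.log (|s.im| + 3) := by
      rw [Real.le_log_iff_exp_le (by linarith)]
      have := Real.exp_one_lt_d9
      linarith
    have hcard : (0 : ℝ) ≤ (Multiset.card Z : ℝ) := Nat.cast_nonneg _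
    have habs := abs_nonneg C2
    rcases le_or_gt (T + 2) |s.im| with h | h
    · have hsθ : θ < s.re := lt_of_lt_of_le hσ hs1
      have hsS : s ∉ S := fun h3 => by
        have := hT s h3
        linarith
      show ‖-(deriv g s / g s)‖ ≤ _
      rw [hform s hsθ hsS]
      have h4 : ‖(Z.map (fun ρ => 1 / (s - ρ))).sum‖ ≤ (Multiset.card Z : ℝ) := by
        have h5 : ∀ W : Multiset ℂ, (∀ ρ ∈ W, ρ ∈ S) →
            ‖(W.map (fun ρ => 1 / (s - ρ))).sum‖ ≤ (Multiset.card W : ℝ) := by
          intro W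
          induction W using Multiset.induction_on with
          | empty => intro _; simp
          | cons a W ih =>
            intro hW
            have h6 := ih (fun ρ hρ => hW ρ (Multiset.mem_cons_of_mem hρ))
            have ha := hT a (hW a (Multiset.mem_cons_self a W))
            rw [Multiset.map_cons, Multiset.sum_cons, Multiset.card_cons]
            have h7 : 1 ≤ ‖s - a‖ := by
              have h8 := Complex.abs_im_le_norm (s - a)
              rw [sub_im] at h8
              have h9 := abs_sub_abs_le_abs_sub s.im a.im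
              linarith
            have h10 : ‖1 / (s - a)‖ ≤ 1 := by
              rw [norm_div, norm_one]
              exact (div_le_one (by linarith)).2 h7
            refine (norm_add_le _ _).trans ?_
            push_cast
            linarith
        exact h5 Z hZS
      have h5 := hb1 s hs1 hs2 h
      refine (norm_add_le _ _).trans ?_
      rw [norm_neg]
      nlinarith
    · have h3 := hC2 s (by
        rw [Complex.mem_reProdIm]
        rw [abs_lt] at h
        exact ⟨⟨hs1, hs2⟩, ⟨h.1.le, h.2.le⟩⟩)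
      refine h3.trans ?_
      have := le_abs_self C2
      nlinarith

end Pool.Agent.Y748.CM
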